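import Mathlib
import Pool.Agent.Helper34K9.UG.Mix

/-!
# Uniform growth gap when the eigenvalues have many periodic points

`G = ⟨S⟩`, `H` is a subgroup of index at most `d`, `Γ = γ_{k+1}(H)` is nilpotent (or `H/[Γ,Γ]` is
not virtually nilpotent).  Then `G` is virtually nilpotent, or `ρ_S ≥ c` with an explicit constant
`c > 0`, or there is an eigenvalue `z` of some `t ∈ H` acting on `ℂ ⊗ Γ^ab` such that
`ρ_S ≥ c' min (1 / 180, log M(z))`, and `z` is an algebraic unit, not a root of unity, for which

* `|Norm (z ^ n - 1)| < exp (deg z / B)` for all `n` with `1 ≤ n ≤ C deg z`;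
* `1 / conj z` is a conjugate of `z` over every totally real or CM number field, the degree of `z`
  is even, fewer than `deg z / N` conjugates are real, and the minimal polynomial has fewer than
  `deg z / B` irreducible factors modulo each prime `p ≤ P`.

The first condition is new; it excludes for instance all `z` whose minimal polynomial has modulo
some prime a factor of degree at least `deg z / B'` dividing `X ^ n - 1` with `n ≤ C deg z`.

The new ingredient is the lower bound `n log M(z) ≥ (θ / 20) ^ 5 deg z` for the Mahler measure of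
every algebraic integer `z` with `|Norm (z ^ n - 1)| ≥ exp (θ deg z)`, `0 < θ ≤ 1`.  Proof: let
`T ∈ ℤ[X]` be a polynomial with small coefficients, of degree `< m`, divisible by `(X - 1) ^ s` with
`s = √m` (Siegel's lemma).  The norm of `T (z ^ (b n))` is divisible by the norm of
`(z ^ n - 1) ^ s`, it is not zero for some `b ≤ m`, and it is bounded above in terms of `M(z)`.
-/

set_option autoImplicit false

namespace Pool.Agent.Results.MP_d69e80_al.PeriodicPointNorms

open Filter Topology Polynomial UniqueFactorizationMonoid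
open scoped Pointwise commutatorElement TensorProduct ComplexConjugate

universe u

/-- The term `γ_{k+1}(G)` of the lower central series (so `k = 1` gives `G'`). -/
abbrev gamma (G : Type*) [Group G] (k : ℕ) : Subgroup G := (⊤ : Subgroup G).lowerCentralSeries k

/-- Conjugation by `t` on the abelianization `N^ab` (written additively) of a normal subgroup `N`,
as an endomorphism of the abelian group `N^ab`. -/
noncomputable def conjAb {G : Type*} [Group G] (N : Subgroup G) [N.Normal] (t : G) :
    Module.End ℤ (Additive (Abelianization N)) :=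
  (MonoidHom.toAdditive
    (Abelianization.map (MulAut.conjNormal t : N ≃* N).toMonoidHom)).toIntLinearMap

/-- `z` is an eigenvalue of `t` acting by conjugation on `ℂ ⊗ N^ab`. -/
def IsEigenvalue {G : Type u} [Group G] (N : Subgroup G) [N.Normal] (t : G) (z : ℂ) : Prop :=
  Module.End.HasEigenvalue (LinearMap.baseChange ℂ (conjAb N t) :
    Module.End ℂ (ℂ ⊗[ℤ] Additive (Abelianization N))) z

/-- The class of groups, for `k`: with `Γ = γ_{k+1}(G)`, either `Γ` is nilpotent or `G / [Γ, Γ]` is
not virtually nilpotent. -/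
def InClass (k : ℕ) (G : Type u) [Group G] : Prop :=
  Group.IsNilpotent (gamma G k) ∨ ¬ Group.IsVirtuallyNilpotent (G ⧸ ⁅gamma G k, gamma G k⁆)

/-- `x` is an algebraic unit (`x` and `x⁻¹` are algebraic integers) and not a root of unity. -/
def UnitNotRoot (x : ℂ) : Prop :=
  x ≠ 0 ∧ IsIntegral ℤ x ∧ IsIntegral ℤ x⁻¹ ∧ ∀ m > 0, x ^ m ≠ 1

/-- The Mahler measure of (the minimal polynomial over `ℤ` of) an algebraic integer. -/
noncomputable def mahler (x : ℂ) : ℝ := ((minpoly ℤ x).map (Int.castRingHom ℂ)).mahlerMeasure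

/-- The degree of an algebraic integer. -/
noncomputable def deg (x : ℂ) : ℕ := (minpoly ℤ x).natDegree

/-- The absolute value of the norm from `ℚ(z)` to `ℚ` of `z ^ n - 1`: the product of `|w ^ n - 1|`
over the conjugates `w` of the algebraic integer `z`. -/
noncomputable def normPow (z : ℂ) (n : ℕ) : ℝ :=
  (((minpoly ℤ z).map (Int.castRingHom ℂ)).roots.map (fun w => ‖w ^ n - 1‖)).prod

/-- The subfield `K` of `ℂ` is totally real or a CM field: some endomorphism `c` of `K` becomes
complex conjugation under every embedding of `K` in `ℂ`. -/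
def RealOrCM (K : IntermediateField ℚ ℂ) : Prop :=
  ∃ c : K →+* K, ∀ (σ : K →+* ℂ) (y : K), conj (σ y) = σ (c y)

/-- There is a number field `K` in `ℂ`, totally real or CM, such that `1 / conj z` is not a
conjugate of `z` over `K`. -/
def NotReciprocal (z : ℂ) : Prop :=
  ∃ K : IntermediateField ℚ ℂ, FiniteDimensional ℚ K ∧ RealOrCM K ∧
    aeval (conj z)⁻¹ (minpoly K z) ≠ 0

/-- The number of irreducible factors of `f` modulo `p`, counted with multiplicity. -/
noncomputable def numFactors (p : ℕ) [Fact p.Prime] (f : ℤ[X]) : ℕ :=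
  Multiset.card (normalizedFactors (f.map (Int.castRingHom (ZMod p))))

/-- The condition on the algebraic integer `z`:
`1 / conj z` is not a conjugate of `z` over some totally real or CM number field; or the degree of
`z` is odd; or at least `deg z / N` conjugates are real; or for a prime `p ≤ P` the minimal
polynomial has at least `deg z / B` irreducible factors modulo `p`; or `|Norm (z ^ n - 1)|` is at
least `exp (deg z / B)` for some `n` with `1 ≤ n ≤ C deg z`. -/
def Good (N P B C : ℕ) (z : ℂ) : Prop :=
  NotReciprocal z ∨ Odd (deg z) ∨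
    (minpoly ℚ z).natDegree ≤ N * ((minpoly ℚ z).rootSet ℝ).ncard ∨
    (∃ (p : ℕ) (_ : Fact p.Prime), p ≤ P ∧ deg z ≤ B * numFactors p (minpoly ℤ z)) ∨
    ∃ n : ℕ, 0 < n ∧ n ≤ C * deg z ∧ Real.exp (deg z / B) ≤ normPow z n

/-- Let `S` be a finite generating set of a group `G`, `H` a subgroup of index at most `d`, `k ≥ 1`
and `Γ = γ_{k+1}(H)`.  Suppose that `Γ` is nilpotent or that `H / [Γ, Γ]` is not virtually
nilpotent.  Then `ρ_S` exists and, for all `N, P, B, C ≥ 1`, either `G` is virtually nilpotent, or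
`ρ_S ≥ 1 / (4 ^ N C (180 B²)⁵ P ^ (2 B + 2) 2 ^ (k + 2) (2 d - 1))`, or
`ρ_S ≥ min (1 / 180) (log M(z)) / (2 ^ (k + 2) (2 d - 1))` for an eigenvalue `z` of some `t ∈ H` on
`ℂ ⊗ Γ^ab` which is an algebraic unit, not a root of unity, and does not satisfy `Good N P B C`. -/
theorem result (k d N P B C : ℕ) (hk : 1 ≤ k) (hN : 1 ≤ N) (hP : 1 ≤ P) (hB : 1 ≤ B)
    (hC : 1 ≤ C) (G : Type u) [Group G] (S : Set G) (hfin : S.Finite)
    (hgen : Subgroup.closure S = ⊤) (H : Subgroup G) (hH0 : H.index ≠ 0) (hHd : H.index ≤ d)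
    (hclass : InClass k H) :
    ∃ ρ : ℝ, Tendsto (fun n : ℕ => Real.log (Nat.card ↥(S ^ n)) / n) atTop (𝓝 ρ) ∧
      (Group.IsVirtuallyNilpotent G ∨
        1 / (4 ^ N * C * (180 * (B : ℝ) ^ 2) ^ 5 * (P : ℝ) ^ (2 * B + 2)) /
          (2 ^ (k + 2) * (2 * d - 1)) ≤ ρ ∨
        ∃ (t : H) (z : ℂ), IsEigenvalue (gamma H k) t z ∧ UnitNotRoot z ∧ ¬ Good N P B C z ∧
          min (1 / 180) (Real.log (mahler z)) / (2 ^ (k + 2) * (2 * d - 1)) ≤ ρ) :=
  ⟨H746UG.rho S, H746UG.tendsto_rho S,
    Helper34K9.UG.gap_tri hk hN hP hB hC S hfin hgen H hH0 hHd hclass⟩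

end Pool.Agent.Results.MP_d69e80_al.PeriodicPointNorms
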