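import Pool.Agent.Helper34K9.HM.Dim

/-!
# MP_3b0be2_nt: smaller dimension for the exceptional leading coefficients

For arbitrary bounded coefficients, uniformly in the linear coefficient, the set of leading
coefficients at which the inequality with exponent `θ η - ε < 1/4` fails has Hausdorff dimension at most
`1 - (3 - 8 (θ η - ε)) / k`, and is null for every measure satisfying the Frostman condition with an exponent
above this number.  For the conjectured exponent `1/k`, `k ≥ 4`, this is `1 - (3 k - 8) / k^2`.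
-/

set_option autoImplicit false

open MeasureTheory

namespace Pool.Agent.Results.MP_3b0be2_nt.SmallExceptionalSets

open Pool.Agent.Helper34K9.HM
open Pool.Agent.Helper10K9.MWS (smc HoldsK)

/-- The set of real `t` for which no constant `C` makes
`|∑_{n ≤ N} c_n e(t n^k + ξ n)| ≤ C N^(1+ε) (1/q + 1/N + q/N^k)^η`
true for all `N ≥ 2`, all real `ξ` and all coprime `1 ≤ a < q ≤ N^θ` with `|t - a/q| ≤ 1/q²`. -/
def Exceptional (c : ℕ → ℂ) (k : ℕ) (θ η ε : ℝ) : Set ℝ :=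
  {t : ℝ | ¬ ∃ C : ℝ, ∀ N : ℕ, 2 ≤ N → ∀ ξ : ℝ, ∀ a q : ℕ, 1 ≤ a → a < q → (q : ℝ) ≤ (N : ℝ) ^ θ →
    Nat.Coprime a q → |t - (a : ℝ) / (q : ℝ)| ≤ 1 / (q : ℝ) ^ 2 →
    ‖∑ n ∈ Finset.Icc 1 N, c n *
        Complex.exp (2 * (Real.pi : ℂ) * Complex.I * ((t * (n : ℝ) ^ k + ξ * (n : ℝ) : ℝ) : ℂ))‖ ≤
      C * (N : ℝ) ^ (1 + ε) * (1 / (q : ℝ) + 1 / (N : ℝ) + (q : ℝ) / (N : ℝ) ^ k) ^ η}

theorem exceptional_subset (c : ℕ → ℂ) (k : ℕ) (θ η ε : ℝ) (hη : 0 ≤ η) :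
    Exceptional c k θ η ε ⊆ {t : ℝ | ¬ ∃ C : ℝ, HoldsK c k (1 - θ * η + ε) C t} := by
  intro t ht hC
  apply ht
  obtain ⟨C, hC⟩ := hC
  refine ⟨|C|, ?_⟩
  intro N hN ξ a q ha haq hqN _ _
  have hN1 : (1 : ℝ) ≤ N := by
    have : 1 ≤ N := by omega
    exact_mod_cast this
  have hN0 : (0 : ℝ) < N := by linarith
  have hq0 : (0 : ℝ) < q := by
    have : 0 < q := by omega
    exact_mod_cast this
  have h1 := hC N hN ξ
  have h2 : smc c k N t ξ = ∑ n ∈ Finset.Icc 1 N, c n *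
        Complex.exp (2 * (Real.pi : ℂ) * Complex.I * ((t * (n : ℝ) ^ k + ξ * (n : ℝ) : ℝ) : ℂ)) := rfl
  rw [h2] at h1
  have h3 : (N : ℝ) ^ (1 - θ * η + ε) = (N : ℝ) ^ (1 + ε) * ((N : ℝ) ^ (-θ)) ^ η := by
    rw [← Real.rpow_mul hN0.le, ← Real.rpow_add hN0]
    congr 1
    ring
  have h4 : (N : ℝ) ^ (-θ) ≤ 1 / (q : ℝ) := by
    rw [Real.rpow_neg hN0.le, ← one_div]
    exact one_div_le_one_div_of_le hq0 hqN
  have h5 : ((N : ℝ) ^ (-θ)) ^ η ≤ (1 / (q : ℝ) + 1 / (N : ℝ) + (q : ℝ) / (N : ℝ) ^ k) ^ η := by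
    apply Real.rpow_le_rpow (by positivity) _ hη
    have h6 : (0 : ℝ) ≤ 1 / (N : ℝ) + (q : ℝ) / (N : ℝ) ^ k := by positivity
    linarith
  calc _ ≤ C * (N : ℝ) ^ (1 - θ * η + ε) := h1
    _ ≤ |C| * (N : ℝ) ^ (1 - θ * η + ε) := mul_le_mul_of_nonneg_right (le_abs_self C) (by positivity)
    _ = |C| * (N : ℝ) ^ (1 + ε) * ((N : ℝ) ^ (-θ)) ^ η := by rw [h3]; ring
    _ ≤ _ := mul_le_mul_of_nonneg_left h5 (by positivity)

/-- **Theorem.** Let `k ≥ 3`, `|c_n| ≤ 1`, `η ≥ 0` and `θ η - ε < 1/4`. The exceptional set has Hausdorff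
dimension at most `1 - (3 - 8 (θ η - ε)) / k`. It is a null set for every Borel measure `μ` on the line with
`μ [x, x + r] ≤ B r^s` for all `x` and `0 < r ≤ 1`, where `s > 1 - (3 - 8 (θ η - ε)) / k`. -/
theorem result (k : ℕ) (hk : 3 ≤ k) (c : ℕ → ℂ) (hc : ∀ n, ‖c n‖ ≤ 1) (θ η ε : ℝ)
    (hη : 0 ≤ η) (hρ : θ * η - ε < 1 / 4) :
    dimH (Exceptional c k θ η ε) ≤ ENNReal.ofReal (1 - (3 - 8 * (θ * η - ε)) / k) ∧
    ∀ (μ : Measure ℝ) (s B : ℝ), 1 - (3 - 8 * (θ * η - ε)) / k < s →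
      (∀ x r : ℝ, 0 < r → r ≤ 1 → μ (Set.Icc x (x + r)) ≤ ENNReal.ofReal (B * r ^ s)) →
      μ (Exceptional c k θ η ε) = 0 := by
  have hk0 : (0 : ℝ) < k := by
    have : 0 < k := by omega
    exact_mod_cast this
  have hκ : 3 / 4 < 1 - θ * η + ε := by linarith
  refine ⟨?_, ?_⟩
  · have h2 := dim8 c hc k hk (1 - θ * η + ε) hκ
    have h3 : (3 : ℝ) - 8 * (1 - (1 - θ * η + ε)) = 3 - 8 * (θ * η - ε) := by ring
    rw [h3] at h2
    exact (dimH_mono (exceptional_subset c k θ η ε hη)).trans h2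
  · intro μ s B hs hμ
    have h4 : (k : ℝ) * (1 - s) + 5 < 8 * (1 - θ * η + ε) := by
      have h5 : (1 - s) * k < (3 - 8 * (θ * η - ε)) := by
        rw [← lt_div_iff₀ hk0]
        linarith
      linarith
    have hμ' : ∀ x r : ℝ, 0 < r → r ≤ 1 → μ (Set.Icc x (x + r)) ≤ ENNReal.ofReal (|B| * r ^ s) := by
      intro x r hr hr1
      refine (hμ x r hr hr1).trans (ENNReal.ofReal_le_ofReal ?_)
      exact mul_le_mul_of_nonneg_right (le_abs_self B) (by positivity)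
    have h6 := frost μ s |B| (abs_nonneg B) hμ' c hc k hk (1 - θ * η + ε) hκ h4
    rw [ae_iff] at h6
    exact measure_mono_null (exceptional_subset c k θ η ε hη) h6

/-- the conjectured exponent `1/k` -/
theorem exponent_one_div_k (k : ℕ) (hk : 4 ≤ k) (c : ℕ → ℂ) (hc : ∀ n, ‖c n‖ ≤ 1) (ε : ℝ) (hε : 0 < ε) :
    dimH (Exceptional c k 1 (1 / k) ε) ≤ ENNReal.ofReal (1 - (3 * k - 8) / (k : ℝ) ^ 2 - 8 * ε / k) := by
  have hk0 : (4 : ℝ) ≤ k := by exact_mod_cast hk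
  have h1 : (1 : ℝ) / k ≤ 1 / 4 := one_div_le_one_div_of_le (by norm_num) hk0
  have h2 := (result k (by omega) c hc 1 (1 / k) ε (by positivity) (by linarith)).1
  refine h2.trans (le_of_eq ?_)
  congr 1
  field_simp
  ring

end Pool.Agent.Results.MP_3b0be2_nt.SmallExceptionalSets
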